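import Pool.Agent.H7.TF.Targets
import Pool.Agent.H7.TF.Basic

/-!
# MP_7a929c_al : module DA (factorizing one element)
-/

set_option autoImplicit false

namespace Pool.Agent.H7.TF

theorem DA (hB11 : T_B11) (hC9 : T_C9) (hC10 : T_C10) (hC12 : T_C12) : T_DA := by
  intro P _ τ t hG R C W hSt l m w hlm
  obtain ⟨p0, q0, g, hg, hgh, hgl, hw⟩ := (hB11 P).2.2.2 l m w hlm
  by_cases hex : ∃ p q : P, emb l p * ev g * emb m q ∈ NR R
  · obtain ⟨p, q, hpq⟩ := hex
    refine ⟨R, C, List.prefix_rfl, hSt, p0 * p⁻¹, q⁻¹ * q0, ?_⟩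
    have e : (emb l (p0 * p⁻¹) * emb m (q⁻¹ * q0))⁻¹ * w
        = ((emb m q)⁻¹ * emb m q0)⁻¹ * (emb l p * ev g * emb m q) * ((emb m q)⁻¹ * emb m q0)⁻¹⁻¹ := by
      rw [hw]
      simp only [map_mul, map_inv]
      group
    rw [e]
    exact (NR_normal R).conj_mem _ hpq _
  · have out : ∀ p q : P, emb l p * ev g * emb m q ∉ NR R := by
      intro p q h
      exact hex ⟨p, q, h⟩
    have gne : g ≠ [] := by
      rintro rfl
      apply out 1 1
      simp only [map_one, ev_nil, one_mul]
      exact (NR R).one_mem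
    have int1 : ∀ u v : P, emb l u * emb m v ∈ NR R → u = 1 ∧ v = 1 := by
      intro u v h
      apply hC12 P R C hG.tor hSt.hQ hSt.hF l m [] hlm ⟨by simp, by simp⟩ (by simp) (by simp) u v
      simpa using h
    have int2 : ∀ u v : P, emb l u * ev g * emb m v * (ev g)⁻¹ ∈ NR R → u = 1 ∧ v = 1 :=
      hC12 P R C hG.tor hSt.hQ hSt.hF l m g hlm hg hgh hgl
    have facts : Facts R l m g := ⟨hlm, gne, out, int1, int2⟩
    set Lb : Set P := Lets R g ∪ ⋃ X ∈ {X | X ∈ W}, Lets R X with hLb
    have hLbf : Lb.Finite := by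
      refine (Lets_finite R g).union ?_
      exact Set.Finite.biUnion W.finite_toSet fun X _ => Lets_finite R X
    have hLg : Lets R g ⊆ Lb := Set.subset_union_left
    have hLX : ∀ X ∈ W, Lets R X ⊆ Lb := by
      intro X hX
      refine Set.Subset.trans ?_ Set.subset_union_right
      exact Set.subset_biUnion_of_mem (u := fun X => Lets R X) hX
    set s : ℕ := 24 * (C + 1) * (1 + g.length + (W.map List.length).sum) with hs
    have hsX : ∀ X ∈ W, 24 * (C + 1) * (1 + g.length + X.length) ≤ s + 1 := by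
      intro X hX
      have h1 : X.length ≤ (W.map List.length).sum :=
        List.single_le_sum (by simp) _ (List.mem_map_of_mem hX)
      have h2 : 24 * (C + 1) * (1 + g.length + X.length)
          ≤ 24 * (C + 1) * (1 + g.length + (W.map List.length).sum) :=
        Nat.mul_le_mul_left _ (by omega)
      omega
    have hs0 : 24 * (C + 1) * (1 + g.length) ≤ s + 1 := by
      have h2 : 24 * (C + 1) * (1 + g.length)
          ≤ 24 * (C + 1) * (1 + g.length + (W.map List.length).sum) :=
        Nat.mul_le_mul_left _ (by omega)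
      omega
    obtain ⟨a, ha, hb⟩ := hG.gen (prodsLE Lb s) (prodsLE_finite hLbf s) (fold g)
    set b := a⁻¹ * fold g with hbdef
    set r : Rel P := ⟨l, m, a, b, g⟩ with hr
    have hFold : Fold (R ++ [r]) := by
      intro r' hr'
      rcases List.mem_append.1 hr' with h | h
      · exact hSt.hF r' h
      · rw [List.mem_singleton.1 h, fold_word, hr]
        show a * b * (fold g)⁻¹ = 1
        rw [hbdef]; group
    refine ⟨R ++ [r], 9 + (C + 1) * (1 + 54 * (1 + g.length)), List.prefix_append _ _,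
      ⟨?_, hFold, ?_⟩, p0 * a, b * q0, ?_⟩
    · exact hC9 P τ R C l m a b g s Lb hSt.hQ facts hLg ha hb hs0
    · intro X hX
      obtain ⟨h1, h2, h3⟩ := hSt.prot X hX
      exact ⟨h1, h2, hC10 P τ R C l m a b g s Lb X hSt.hQ facts hLg (hLX X hX) ha hb (hsX X hX)
        hFold h1 h2 h3⟩
    · have hmem : ev r.word ∈ NR (R ++ [r]) := ev_word_mem (by simp)
      rw [ev_word] at hmem
      have hmem' : emb l a * emb m b * (ev g)⁻¹ ∈ NR (R ++ [r]) := hmem
      have e : (emb l (p0 * a) * emb m (b * q0))⁻¹ * w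
          = ((emb m q0)⁻¹ * (ev g)⁻¹) * (emb l a * emb m b * (ev g)⁻¹)⁻¹
            * ((emb m q0)⁻¹ * (ev g)⁻¹)⁻¹ := by
        rw [hw]
        simp only [map_mul]
        group
      rw [e]
      exact (NR_normal _).conj_mem _ ((NR _).inv_mem hmem') _

end Pool.Agent.H7.TF
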